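import Pool.Agent.H53R8.Final

/-!
# The approximative complexity of all multiples of the permanent

Every nonzero multiple of the `N × N` permanent, of any degree, has approximative (border)
complexity at least `(1/864 - o(1)) N² log₂ N`: only multiplications are counted, and this is a lower
bound for the computation, over `k(ε)`, of every polynomial which is a nonzero multiple of a family
that tends to a nonzero multiple of the permanent.
-/

set_option autoImplicit false

open MvPolynomial

namespace Pool.Agent.Results.MP_499dc6_lc.LimitsOfMultiples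

universe u

/-- A division-free straight-line program `g 0, …, g (s - 1)` over the field `K` in which additions
and multiplications by constants are free: a line `i ∉ M` is any linear combination, with
coefficients in `K`, of `1`, the variables and the earlier lines; a line `i ∈ M` is the product of
two earlier lines.  The cost of the program is the number of elements of `M`. -/
def IsProgram {K σ : Type*} [Field K] (s : ℕ) (M : Finset ℕ) (g : ℕ → MvPolynomial σ K) : Prop :=
  ∀ i < s, (i ∉ M ∧ g i ∈ Submodule.span K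
      ({1} ∪ Set.range (X : σ → MvPolynomial σ K) ∪ g '' {j | j < i})) ∨
    (i ∈ M ∧ ∃ a < i, ∃ b < i, g i = g a * g b)

/-- `F` is computed with at most `r` non-scalar multiplications (additions, subtractions and
multiplications by elements of `K` are free). -/
def NonscalarLE {K σ : Type*} [Field K] (r : ℕ) (F : MvPolynomial σ K) : Prop :=
  ∃ (s : ℕ) (M : Finset ℕ) (g : ℕ → MvPolynomial σ K),
    M.card ≤ r ∧ IsProgram s M g ∧ ∃ i < s, g i = F

/-- `L(F) ≤ r`: `F` is computed by a division-free straight-line program which starts from the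
variables and arbitrary constants of `K` and performs at most `r` additions, subtractions and
multiplications (the lines in `ops`). -/
def LLE {K σ : Type*} [Field K] (r : ℕ) (F : MvPolynomial σ K) : Prop :=
  ∃ (s : ℕ) (ops : Finset ℕ) (g : ℕ → MvPolynomial σ K), ops.card ≤ r ∧
    (∀ i < s, (i ∉ ops ∧ ((∃ c : K, g i = C c) ∨ ∃ v, g i = X v)) ∨
      (i ∈ ops ∧ ∃ a < i, ∃ b < i, g i = g a + g b ∨ g i = g a - g b ∨ g i = g a * g b)) ∧
    ∃ i < s, g i = F

/-- All coefficients of `F` are defined at `ε = 0` and `F_{ε=0} = f`. -/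
def SpecializesTo {k σ : Type*} [Field k] (F : MvPolynomial σ (RatFunc k))
    (f : MvPolynomial σ k) : Prop :=
  ∀ d, (coeff d F).denom.eval 0 ≠ 0 ∧ (coeff d F).eval (RingHom.id k) 0 = coeff d f

/-- The generic `N × N` permanent. -/
noncomputable def per (k : Type*) [Field k] (N : ℕ) : MvPolynomial (Fin N × Fin N) k :=
  Matrix.permanent (Matrix.of fun i j : Fin N => (X (i, j) : MvPolynomial (Fin N × Fin N) k))

open Pool.Agent.H632R2.Border (O0 φ0 mem_O0)

section Aux

variable {k : Type*} [Field k]

lemma specializes_iff {σ : Type*} (F : MvPolynomial σ (RatFunc k)) (f : MvPolynomial σ k) :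
    SpecializesTo F f ↔
      ∃ F' : MvPolynomial σ (O0 k), map (O0 k).subtype F' = F ∧ map (φ0 k) F' = f := by
  constructor
  · intro h
    have hrange : F ∈ (MvPolynomial.map (σ := σ) (O0 k).subtype).range := by
      rw [RingHom.mem_range]
      change _ ∈ Set.range _
      rw [mem_range_map_iff_coeffs_subset]
      intro x hx
      rw [Finset.mem_coe, mem_coeffs_iff] at hx
      obtain ⟨d, _, rfl⟩ := hx
      exact ⟨⟨_, (h d).1⟩, rfl⟩
    obtain ⟨F', hF'⟩ := hrange
    refine ⟨F', hF', ?_⟩
    ext d
    rw [coeff_map, ← (h d).2]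
    have h1 := congrArg (coeff d) hF'
    rw [coeff_map] at h1
    rw [← h1]
    rfl
  · rintro ⟨F', hF', hf⟩ d
    have h1 := congrArg (coeff d) hF'
    rw [coeff_map] at h1
    have h2 := congrArg (coeff d) hf
    rw [coeff_map] at h2
    rw [← h1, ← h2]
    exact ⟨(coeff d F').2, rfl⟩

/-- a nonzero polynomial over `k(ε)` has a multiple by a scalar with a nonzero limit -/
lemma exists_scale {σ : Type*} (G : MvPolynomial σ (RatFunc k)) (hG : G ≠ 0) :
    ∃ c : RatFunc k, c ≠ 0 ∧ ∃ g : MvPolynomial σ k, g ≠ 0 ∧ SpecializesTo (C c * G) g := by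
  classical
  have hne : G.support.Nonempty := by
    rw [Finset.nonempty_iff_ne_empty, Ne, support_eq_empty]
    exact hG
  obtain ⟨d₀, hd₀, hmax⟩ := Finset.exists_max_image G.support
    (fun d => (O0 k).valuation (coeff d G)) hne
  have hc0 : coeff d₀ G ≠ 0 := mem_support_iff.1 hd₀
  have hmem : ∀ d, (coeff d₀ G)⁻¹ * coeff d G ∈ O0 k := by
    intro d
    rw [← ValuationSubring.valuation_le_one_iff, map_mul, map_inv₀]
    by_cases hd : d ∈ G.support
    · have h1 := hmax d hd
      have h2 : (O0 k).valuation (coeff d₀ G) ≠ 0 := by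
        rw [Ne, map_eq_zero]; exact hc0
      calc ((O0 k).valuation (coeff d₀ G))⁻¹ * (O0 k).valuation (coeff d G)
          ≤ ((O0 k).valuation (coeff d₀ G))⁻¹ * (O0 k).valuation (coeff d₀ G) :=
            mul_le_mul_right h1 _
        _ = 1 := inv_mul_cancel₀ h2
    · rw [notMem_support_iff.1 hd, map_zero, mul_zero]
      exact zero_le_one
  refine ⟨(coeff d₀ G)⁻¹, inv_ne_zero hc0, ?_⟩
  have hrange : C (coeff d₀ G)⁻¹ * G ∈ (MvPolynomial.map (σ := σ) (O0 k).subtype).range := by
    rw [RingHom.mem_range]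
    change _ ∈ Set.range _
    rw [mem_range_map_iff_coeffs_subset]
    intro x hx
    rw [Finset.mem_coe, mem_coeffs_iff] at hx
    obtain ⟨d, _, rfl⟩ := hx
    refine ⟨⟨_, hmem d⟩, ?_⟩
    rw [coeff_C_mul]
    rfl
  obtain ⟨G', hG'⟩ := hrange
  refine ⟨map (φ0 k) G', ?_, (specializes_iff _ _).2 ⟨G', hG', rfl⟩⟩
  intro h0
  have h1 := congrArg (coeff d₀) hG'
  rw [coeff_map, coeff_C_mul, inv_mul_cancel₀ hc0] at h1
  have h2 : coeff d₀ G' = 1 := Subtype.ext h1
  have h3 := congrArg (coeff d₀) h0
  rw [coeff_map, h2, map_one, coeff_zero] at h3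
  exact one_ne_zero h3

lemma SpecializesTo.mul {σ : Type*} {F G : MvPolynomial σ (RatFunc k)} {f g : MvPolynomial σ k}
    (hF : SpecializesTo F f) (hG : SpecializesTo G g) : SpecializesTo (F * G) (f * g) := by
  obtain ⟨F', h1, h2⟩ := (specializes_iff _ _).1 hF
  obtain ⟨G', h3, h4⟩ := (specializes_iff _ _).1 hG
  exact (specializes_iff _ _).2 ⟨F' * G', by rw [map_mul, h1, h3], by rw [map_mul, h2, h4]⟩

/-- all operations counted: the multiplications are counted -/
lemma nonscalar_of_LLE {K σ : Type*} [Field K] {r : ℕ} {F : MvPolynomial σ K} (h : LLE r F) :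
    NonscalarLE r F := by
  classical
  obtain ⟨s, ops, g, hops, hg, i, hi, hgi⟩ := h
  refine ⟨s, ops.filter (fun i => ∃ a < i, ∃ b < i, g i = g a * g b), g,
    (Finset.card_filter_le _ _).trans hops, ?_, i, hi, hgi⟩
  intro j hj
  by_cases hP : j ∈ ops.filter (fun i => ∃ a < i, ∃ b < i, g i = g a * g b)
  · exact Or.inr ⟨hP, (Finset.mem_filter.1 hP).2⟩
  · refine Or.inl ⟨hP, ?_⟩
    have hmem : ∀ a < j, g a ∈ Submodule.span K
        ({1} ∪ Set.range (X : σ → MvPolynomial σ K) ∪ g '' {j' | j' < j}) :=
      fun a ha => Submodule.subset_span (Or.inr ⟨a, ha, rfl⟩)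
    rcases hg j hj with ⟨_, ⟨c, hc⟩ | ⟨v, hv⟩⟩ | ⟨hjo, a, ha, b, hb, hab | hab | hab⟩
    · rw [hc, show (C c : MvPolynomial σ K) = c • 1 by rw [smul_eq_C_mul, mul_one]]
      exact Submodule.smul_mem _ _ (Submodule.subset_span (Or.inl (Or.inl rfl)))
    · rw [hv]
      exact Submodule.subset_span (Or.inl (Or.inr ⟨v, rfl⟩))
    · rw [hab]
      exact Submodule.add_mem _ (hmem a ha) (hmem b hb)
    · rw [hab]
      exact Submodule.sub_mem _ (hmem a ha) (hmem b hb)
    · exact absurd (Finset.mem_filter.2 ⟨hjo, a, ha, b, hb, hab⟩) hP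

/-- multiplication by a constant is free -/
lemma NonscalarLE.smul {K σ : Type*} [Field K] {r : ℕ} {F : MvPolynomial σ K}
    (h : NonscalarLE r F) (c : K) : NonscalarLE r (C c * F) := by
  classical
  obtain ⟨s, M, g, hM, hg, i, hi, hgi⟩ := h
  refine ⟨s + 1, M.filter (· < s), fun j => if j = s then C c * F else g j,
    (Finset.card_filter_le _ _).trans hM, ?_, s, Nat.lt_succ_self s, by simp⟩
  intro j hj
  rcases Nat.lt_or_ge j s with hjs | hjs
  · have hne : j ≠ s := hjs.ne
    have himg : (fun j => if j = s then C c * F else g j) '' {j' | j' < j} = g '' {j' | j' < j} := by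
      apply Set.image_congr
      intro a ha
      have ha' : a < j := ha
      have : a ≠ s := by omega
      simp [this]
    simp only [hne, if_false]
    rw [himg]
    rcases hg j hjs with ⟨h1, h2⟩ | ⟨h1, a, ha, b, hb, hab⟩
    · exact Or.inl ⟨fun h => h1 (Finset.mem_filter.1 h).1, h2⟩
    · refine Or.inr ⟨Finset.mem_filter.2 ⟨h1, hjs⟩, a, ha, b, hb, ?_⟩
      rw [if_neg (by omega), if_neg (by omega)]
      exact hab
  · have hjs' : j = s := by omega
    subst hjs'
    refine Or.inl ⟨fun h => absurd (Finset.mem_filter.1 h).2 (lt_irrefl _), ?_⟩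
    simp only [if_true]
    rw [← smul_eq_C_mul]
    refine Submodule.smul_mem _ _ (Submodule.subset_span (Or.inr ⟨i, hi, ?_⟩))
    simp only
    rw [if_neg (by omega), hgi]

end Aux

/-- **The approximative complexity of every nonzero multiple of the permanent is at least
`(1/864 - o(1)) N² log₂ N`.**  For every `ε > 0` there is `N₀` such that for all fields `k` of
characteristic zero, all `N ≥ N₀` and all `r`:

1. Let `F` be a polynomial over `k(ε)` whose coefficients are defined at `ε = 0` and which tends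
   there to `per * q` for some polynomial `q ≠ 0` over `k`, of any degree and any complexity, and
   let `G ≠ 0` be an arbitrary polynomial over `k(ε)` (for example `G = 1`). If `F * G` is computed
   over `k(ε)` with at most `r` multiplications that are not multiplications by constants (or: with
   at most `r` additions, subtractions and multiplications), then `(1/864 - ε) N² log₂ N ≤ r`.
2. If a nonzero multiple of the permanent over `k` is computed over `k` in this way then
   `(1/864 - ε) N² log₂ N ≤ r`. -/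
theorem result (ε : ℝ) (hε : 0 < ε) : ∃ N₀ : ℕ, ∀ (k : Type u) [Field k] [CharZero k],
    ∀ N ≥ N₀, ∀ r : ℕ,
      (∀ (F G : MvPolynomial (Fin N × Fin N) (RatFunc k)) (q : MvPolynomial (Fin N × Fin N) k),
        SpecializesTo F (per k N * q) → q ≠ 0 → G ≠ 0 →
        (NonscalarLE r (F * G) ∨ LLE r (F * G)) →
        (1 / 864 - ε) * (N : ℝ) ^ 2 * Real.logb 2 N ≤ r) ∧
      (∀ q : MvPolynomial (Fin N × Fin N) k, q ≠ 0 →
        (NonscalarLE r (per k N * q) ∨ LLE r (per k N * q)) →
        (1 / 864 - ε) * (N : ℝ) ^ 2 * Real.logb 2 N ≤ r) := by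
  classical
  obtain ⟨N₀, h⟩ := Pool.Agent.H53R8.multiples_border.{u} ε hε
  have key : ∀ (k : Type u) [Field k] [CharZero k], ∀ N ≥ N₀, ∀ r : ℕ,
      ∀ (F G : MvPolynomial (Fin N × Fin N) (RatFunc k)) (q : MvPolynomial (Fin N × Fin N) k),
        SpecializesTo F (per k N * q) → q ≠ 0 → G ≠ 0 → NonscalarLE r (F * G) →
        (1 / 864 - ε) * (N : ℝ) ^ 2 * Real.logb 2 N ≤ r := by
    intro k _ _ N hN r F G q hF hq hG hr
    obtain ⟨c, hc, b, hb, hcb⟩ := exists_scale G hG
    obtain ⟨s, M, g, hM, hg, hi⟩ := hr.smul c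
    have hlim : SpecializesTo (C c * (F * G)) ((q * b) * Pool.Agent.H546R2.SL.perN k N) := by
      have h1 := hF.mul hcb
      have e1 : F * (C c * G) = C c * (F * G) := by ring
      have e2 : per k N * q * b = (q * b) * Pool.Agent.H546R2.SL.perN k N := by
        unfold per Pool.Agent.H546R2.SL.perN; ring
      rwa [e1, e2] at h1
    obtain ⟨i, hi, hgi⟩ := hi
    have h1 := h k N hN (q * b) (mul_ne_zero hq hb) _ hlim s M g hg ⟨i, hi, hgi.symm⟩
    have h2 : (M.card : ℝ) ≤ r := by exact_mod_cast hM
    exact h1.trans h2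
  refine ⟨N₀, fun k _ _ N hN r => ⟨?_, ?_⟩⟩
  · intro F G q hF hq hG hr
    exact key k N hN r F G q hF hq hG (hr.elim id nonscalar_of_LLE)
  · intro q hq hr
    have hr' : NonscalarLE r (per k N * q) := hr.elim id nonscalar_of_LLE
    obtain ⟨s, M, g, hM, hg, i, hi, hgi⟩ := hr'
    have hg' : Pool.Agent.H546R2.SL.NSLP s M g := hg
    have h1 : SpecializesTo (map (RatFunc.C (K := k)) (per k N * q)) (per k N * q) := by
      intro d
      rw [coeff_map]
      refine ⟨?_, ?_⟩
      · rw [RatFunc.denom_C]; simp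
      · rw [RatFunc.eval_C]; rfl
    refine key k N hN r _ 1 q h1 hq one_ne_zero ?_
    rw [mul_one]
    exact ⟨s, M, _, hM, hg'.map RatFunc.C, i, hi, by rw [hgi]⟩

end Pool.Agent.Results.MP_499dc6_lc.LimitsOfMultiples
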