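import Pool.Agent.TH708.Ari.Perm

set_option autoImplicit false

/-!
# Narrow multilinear circuits for the permanent and the determinant

Arithmetic circuits over any field with fan-in two, whose sum and product gates lie in layers of at
most `w` gates (as for the class SC; variables and constants can be used everywhere) and whose formal
degree in the diagonal entries is at most one.  Syntactically multilinear circuits have formal degree
at most one in all entries; here the other entries may be used in any way.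

If such a circuit with `S` nodes computes the `n × n` permanent or determinant, then
`(log n)² ≤ 2^40 (log w + 1) (log S + 1)`.  So there are none of polynomial size and width
`n^{o(1)}`, and polylogarithmic width needs size `n^{Ω(log n / log log n)}`.  It is enough that the
circuit is correct on matrices with entries `0` and `1`, and that the formal degree is at most one
in the entries `(i, i)`, `i ∈ W` (then `n` is replaced by `|W|`).

Proof idea.  For every half `Y` of the diagonal entries a substitution of zeros and ones for the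
other entries turns the permanent into a product of factors `x_y x_{σ(y)} + 1`, of full rank with
respect to `Y` and its complement.  Expand the circuit from the top, layer by layer, as a sum over
sets of at most `κ` gates of the layer that read many entries each.  If `Y` halves no chain of such
sets almost perfectly, the rank of the output is too small.  A multiscale union bound over the few
candidates in each layer shows that most `Y` halve no chain.
-/

namespace Pool.Agent.Results.MP_499dc6_lc.NarrowMultilinear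

open Pool.Agent.TH708.Ari

theorem not_narrow (K : Type) [Field K] : ¬ ∃ c : ℕ, ∀ n : ℕ, ∃ C : Ckt K (Fin n × Fin n),
    (ComputesPer C ∨ ComputesDet C) ∧ (∀ i : Fin n, C.deg (i, i) ≤ 1) ∧ C.size ≤ n ^ c + c ∧
      C.Width (Nat.log 2 n ^ c + c) := by
  rintro ⟨c, h⟩
  obtain ⟨m, hm⟩ : ∃ m, m = 4 * c + 50 := ⟨_, rfl⟩
  obtain ⟨N, hN⟩ : ∃ N, N = 2 ^ m := ⟨_, rfl⟩
  obtain ⟨C, h1, h2, h3, h4⟩ := h (2 ^ N)
  have hlog : Nat.log 2 (2 ^ N) = N := Nat.log_pow (by norm_num) N
  rw [hlog] at h4
  have hb := narrow C h1 Finset.univ (fun i _ => h2 i) _ h4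
  rw [Finset.card_univ, Fintype.card_fin, hlog] at hb
  have hc : c < 2 ^ c := Nat.lt_two_pow_self
  have hadd : ∀ x : ℕ, 2 ^ x + c ≤ 2 ^ (x + c) := by
    intro x
    rw [pow_add]
    have hx : 1 ≤ 2 ^ x := Nat.one_le_two_pow
    nlinarith
  have hw : Nat.log 2 (N ^ c + c) ≤ m * c + c := by
    have : N ^ c + c ≤ 2 ^ (m * c + c) := by
      rw [hN, ← pow_mul]
      exact hadd _
    calc Nat.log 2 (N ^ c + c) ≤ Nat.log 2 (2 ^ (m * c + c)) := Nat.log_mono_right this
      _ = _ := Nat.log_pow (by norm_num) _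
  have hs : Nat.log 2 C.size ≤ N * c + c := by
    have : C.size ≤ 2 ^ (N * c + c) := by
      refine h3.trans ?_
      rw [← pow_mul]
      exact hadd _
    calc Nat.log 2 C.size ≤ Nat.log 2 (2 ^ (N * c + c)) := Nat.log_mono_right this
      _ = _ := Nat.log_pow (by norm_num) _
  have h5 : N ^ 2 ≤ 2 ^ 40 * ((m * c + c + 1) * (N * c + c + 1)) :=
    hb.trans (Nat.mul_le_mul_left _ (Nat.mul_le_mul (by omega) (by omega)))
  have hN1 : 1 ≤ N := by rw [hN]; exact Nat.one_le_two_pow
  have h6 : N * c + c + 1 ≤ N * (2 * c + 1) := by nlinarith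
  have h7 : N * N ≤ N * (2 ^ 40 * ((m * c + c + 1) * (2 * c + 1))) := by
    calc N * N = N ^ 2 := by ring
      _ ≤ 2 ^ 40 * ((m * c + c + 1) * (N * c + c + 1)) := h5
      _ ≤ 2 ^ 40 * ((m * c + c + 1) * (N * (2 * c + 1))) :=
          Nat.mul_le_mul_left _ (Nat.mul_le_mul_left _ h6)
      _ = _ := by ring
  have h8 : N ≤ 2 ^ 40 * ((m * c + c + 1) * (2 * c + 1)) := Nat.le_of_mul_le_mul_left h7 hN1
  have h9 : m * c + c + 1 ≤ (m + 1) * (c + 1) := by nlinarith
  have h10 : 2 * c + 1 ≤ 2 * (c + 1) := by omega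
  have h11 : c + 1 ≤ 2 ^ c := hc
  have h12 : m + 1 ≤ 2 ^ (2 * c + 6) := by
    rw [hm, pow_add, pow_mul]
    have : 4 ^ c = (2 ^ 2) ^ c := by norm_num
    have h13 : 1 + c * 3 ≤ 4 ^ c := by
      have := one_add_mul_le_pow (a := (3 : ℤ)) (by norm_num) c
      have h14 : (1 : ℤ) + c * 3 ≤ 4 ^ c := by norm_num at this; exact this
      exact_mod_cast h14
    rw [← this]
    omega
  have h13 : N ≤ 2 ^ (4 * c + 47) := by
    calc N ≤ 2 ^ 40 * ((m * c + c + 1) * (2 * c + 1)) := h8
      _ ≤ 2 ^ 40 * (((m + 1) * (c + 1)) * (2 * (c + 1))) :=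
          Nat.mul_le_mul_left _ (Nat.mul_le_mul h9 h10)
      _ ≤ 2 ^ 40 * ((2 ^ (2 * c + 6) * 2 ^ c) * (2 * 2 ^ c)) :=
          Nat.mul_le_mul_left _ (Nat.mul_le_mul (Nat.mul_le_mul h12 h11)
            (Nat.mul_le_mul_left _ h11))
      _ = 2 ^ (4 * c + 47) := by
          have e1 : 2 ^ (4 * c + 47) = 2 ^ 40 * ((2 ^ (2 * c + 6) * 2 ^ c) * (2 ^ 1 * 2 ^ c)) := by
            rw [← pow_add, ← pow_add, ← pow_add, ← pow_add]
            congr 1
            ring
          rw [e1, pow_one]
  rw [hN, hm] at h13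
  have := (Nat.pow_le_pow_iff_right (by norm_num : 1 < 2)).1 h13
  omega

theorem result :
    (∀ (K : Type) [Field K] (n : ℕ) (C : Ckt K (Fin n × Fin n)) (W : Finset (Fin n)) (w : ℕ),
      ComputesPer C ∨ ComputesDet C → (∀ i ∈ W, C.deg (i, i) ≤ 1) → C.Width w →
        (Nat.log 2 W.card) ^ 2 ≤ 2 ^ 40 * ((Nat.log 2 w + 1) * (Nat.log 2 C.size + 1))) ∧
    ∀ (K : Type) [Field K], ¬ ∃ c : ℕ, ∀ n : ℕ, ∃ C : Ckt K (Fin n × Fin n),
      (ComputesPer C ∨ ComputesDet C) ∧ (∀ i : Fin n, C.deg (i, i) ≤ 1) ∧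
        C.size ≤ n ^ c + c ∧ C.Width (Nat.log 2 n ^ c + c) :=
  ⟨fun _ _ _ C W w hC hd hw => narrow C hC W hd w hw, fun K _ => not_narrow K⟩

end Pool.Agent.Results.MP_499dc6_lc.NarrowMultilinear
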