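import Pool.Agent.TH152.NS.Perm

/-!
# Nondegenerate systems of equations whose solution gives the permanent

A polynomial `F` in variables `x` is computed implicitly: there are unknowns `t 1, …, t s` and
`z 1, …, z S`, as many polynomial equations as unknowns, and the unknowns are algebraic functions of
`x` which solve the system and for which the Jacobian determinant of the system with respect to the
unknowns is not zero; `F` is a polynomial `f (x, t, z)` of this solution.

* The `S` equations of the second kind are linear in `z`: of degree at most one in `z` and of degree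
  at most `δ` in `x` and `t` together.
* The `s` equations of the first kind and `f` have degree at most two in `z` and at most `δ` in `x`
  and `t` together.

For example: a circuit with `s` products of linear combinations, and also with divisions and with
roots of polynomials (`δ = 2`, `S = 0`: equations `t j = a j * b j` or `t j * b j = a j` or
`t j ^ 2 = a j`); `s` algebraic branching programs, or inverses of matrices, with `S` vertices in
total, the labels of which are linear combinations of `1`, `x` and the results `t` of other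
programs (`δ = 1`); the system need not be triangular, that is, the gates need not be ordered.
-/

set_option autoImplicit false

open MvPolynomial

namespace Pool.Agent.Results.MP_499dc6_lc.NondegenerateSystems

/-- The degree of `P (x, t, z)` in `x` and `t` together is at most `δ`, and its degree in `z` is at
most `β`. -/
def BidegreeLE {K σ H Z : Type*} [CommSemiring K] [Fintype σ] [Fintype H] [Fintype Z] (δ β : ℕ)
    (P : MvPolynomial (σ ⊕ (H ⊕ Z)) K) : Prop :=
  ∀ μ ∈ P.support, (∑ v, μ (Sum.inl v)) + (∑ i, μ (Sum.inr (Sum.inl i))) ≤ δ ∧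
    ∑ b, μ (Sum.inr (Sum.inr b)) ≤ β

/-- The field of the algebraic functions of the variables: an algebraic closure of the field of
rational functions. -/
abbrev AlgFun (K σ : Type*) [Field K] : Type _ :=
  AlgebraicClosure (FractionRing (MvPolynomial σ K))

/-- The algebraic function `P (x, u)`. -/
noncomputable def value {K σ U : Type*} [Field K] (u : U → AlgFun K σ)
    (P : MvPolynomial (σ ⊕ U) K) : AlgFun K σ :=
  aeval (Sum.elim (fun v => algebraMap (MvPolynomial σ K) (AlgFun K σ) (X v)) u) P

/-- The algebraic functions `u` solve the equations, and the determinant of the matrix of the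
derivatives of the equations with respect to the unknowns is not zero at `u`. -/
def IsNondegenerateSolution {K σ U : Type*} [Field K] [Fintype U] [DecidableEq U]
    (eq : U → MvPolynomial (σ ⊕ U) K) (u : U → AlgFun K σ) : Prop :=
  (∀ k, value u (eq k) = 0) ∧
    (Matrix.of fun k j => value u (pderiv (Sum.inr j) (eq k))).det ≠ 0

/-- The polynomial `F` is a polynomial of the variables and of a nondegenerate solution of a system
with `s` unknowns of the first kind and `S` unknowns of the second kind. -/
def Computes {K σ : Type*} [Field K] [Fintype σ] (δ s S : ℕ) (F : MvPolynomial σ K) : Prop :=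
  ∃ (eq : Fin s ⊕ Fin S → MvPolynomial (σ ⊕ (Fin s ⊕ Fin S)) K)
    (f : MvPolynomial (σ ⊕ (Fin s ⊕ Fin S)) K) (u : Fin s ⊕ Fin S → AlgFun K σ),
    (∀ i, BidegreeLE δ 2 (eq (Sum.inl i))) ∧ (∀ b, BidegreeLE δ 1 (eq (Sum.inr b))) ∧
      BidegreeLE δ 2 f ∧ IsNondegenerateSolution eq u ∧
        value u f = algebraMap (MvPolynomial σ K) (AlgFun K σ) F

/-- All coefficients of `F` are defined at `ε = 0` and `F_{ε=0} = f`. -/
def SpecializesTo {K σ : Type*} [Field K] (F : MvPolynomial σ (RatFunc K))
    (f : MvPolynomial σ K) : Prop :=
  ∀ d, (coeff d F).denom.eval 0 ≠ 0 ∧ (coeff d F).eval (RingHom.id K) 0 = coeff d f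

/-- The permanent of the `m × m` matrix of variables. -/
noncomputable def per (K : Type*) [Field K] (m : ℕ) : MvPolynomial (Fin m × Fin m) K :=
  (Matrix.of fun i j : Fin m => (X (i, j) : MvPolynomial (Fin m × Fin m) K)).permanent

lemma value_eq {K σ U : Type*} [Field K] (u : U → AlgFun K σ) (P : MvPolynomial (σ ⊕ U) K) :
    value u P =
      Pool.Agent.TH152.NS.evp (algebraMap (MvPolynomial σ K) (AlgFun K σ)) u P := by
  unfold value Pool.Agent.TH152.NS.evp
  rw [aeval_def, coe_eval₂Hom]
  congr 1

lemma given {K σ : Type*} [Field K] [Fintype σ] {δ s S : ℕ} {F : MvPolynomial σ K}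
    (h : Computes δ s S F) : Pool.Agent.TH152.NS.Given δ s S F := by
  obtain ⟨eq, f, u, h1, h2, h3, ⟨h4, h5⟩, h6⟩ := h
  refine ⟨eq, f, u, h1, h2, h3, fun k => ?_, ?_, ?_⟩
  · rw [← value_eq]
    exact h4 k
  · simp only [← value_eq]
    exact h5
  · rw [← value_eq]
    exact h6

/-- **Systems for the permanent.**  Let `K` be a field of characteristic zero, `m ≥ 55000` and
`δ ≥ 1`.  Suppose that the `m × m` permanent is given over `K` by a nondegenerate solution of a
system with `s` unknowns of the first and `S` unknowns of the second kind, or that it is the value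
for `ε = 0` of a polynomial given over `K(ε)` by such a solution.  Then
`m² log (m³ / (2.1 · 10⁷ δ (m² + S))) ≤ 544 s log (δ (10 + 4352 S / m²))`, and
`m ^ (2 + m² / (m² + 544 s)) ≤ 2.1 · 10⁷ δ (m² + S)`. -/
theorem result {K : Type*} [Field K] [CharZero K] (m : ℕ) (hm : 55000 ≤ m) (δ s S : ℕ)
    (hδ : 1 ≤ δ) (h : Computes δ s S (per K m) ∨
      ∃ F : MvPolynomial (Fin m × Fin m) (RatFunc K),
        SpecializesTo F (per K m) ∧ Computes δ s S F) :
    (m : ℝ) ^ 2 * Real.log ((m : ℝ) ^ 3 / (21000000 * δ * ((m : ℝ) ^ 2 + S))) ≤
        544 * s * Real.log (δ * (10 + 4352 * S / (m : ℝ) ^ 2)) ∧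
      (m : ℝ) ^ (2 + (m : ℝ) ^ 2 / ((m : ℝ) ^ 2 + 544 * s)) ≤
        21000000 * δ * ((m : ℝ) ^ 2 + S) := by
  have h1 : (m : ℝ) ^ 2 * Real.log ((m : ℝ) ^ 3 / (21000000 * δ * ((m : ℝ) ^ 2 + S))) ≤
      544 * s * Real.log (δ * (10 + 4352 * S / (m : ℝ) ^ 2)) := by
    rcases h with h | ⟨F, hF, h⟩
    · refine Pool.Agent.TH152.NS.perm_border K m hm hδ _
        ((given h).map (RatFunc.C : K →+* RatFunc K)) ?_
      intro d
      rw [coeff_map]
      constructor
      · rw [RatFunc.denom_C]; simp
      · rw [RatFunc.eval_C]; rfl
    · exact Pool.Agent.TH152.NS.perm_border K m hm hδ F (given h) hF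
  exact ⟨h1, Pool.Agent.TH152.NS.power_form m S s δ hm hδ h1⟩

end Pool.Agent.Results.MP_499dc6_lc.NondegenerateSystems
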