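import Pool.Agent.W944.V2Prod
import Pool.Agent.W944.V2Law

/-!
# The law of scales for the permanent

A computation has free linear combinations; every product `a s * b s` of two available polynomials
is counted.

**Weighted form.** Let the factors `a s`, `b s` have weights `A s`, `B s ≤ Ω` and let the product
have the weight `C s`, `0 < C s ≤ Ω`, such that every factor of weight `w` is the sum of a free
polynomial of degree at most `w` and a linear combination of earlier products of weight at most `w`.
If the `m × m` permanent is computed in this way, exactly or as a limit, then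

`m ^ 2 log (m / (6000 Ω)) ≤ 816 ∑ log (max (1, (A s + B s) / C s))`.

**Law of scales.** Let all polynomials of degree at most `δ` be free and let `p s`, `q s ≥ δ` be
formal degrees of the factors of the product `s`. Then for every scale `T ≥ δ`

`m ^ 2 log (m / (6000 T)) ≤ 816 ∑ min (1, min (p s, q s) / T)`,

the sum over all products of formal degree `p s + q s > T` (use the weights `min (p s, T)`,
`min (q s, T)`, `min (p s + q s, T)`). So a computation of the permanent needs, at every scale `T`,
order `m ^ 2 log (m / T)` products of formal degree larger than `T` when a product whose smaller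
factor has formal degree `θ < T` counts only as `θ / T` products. For `T = δ` this is the bound
`c m ^ 2 log (m / δ)` for all computations, for `T = m / 12000` it is the cubic bound
`c m ^ 3 / θ` for computations all of whose products have a factor of formal degree at most `θ`.
-/

set_option autoImplicit false

open MvPolynomial

namespace Pool.Agent.Results.MP_499dc6_lc.ScaleLawPermanent

universe u

section Definitions

variable {K σ : Type*} [Field K] {n : ℕ}

/-- The polynomial `f` is the sum of a free polynomial of total degree at most `w` and a linear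
combination of products `a j * b j` with `j ∈ J` of weight `C j ≤ w`. -/
def OfWeight (a b : Fin n → MvPolynomial σ K) (C : Fin n → ℝ) (w : ℝ) (J : Finset (Fin n))
    (f : MvPolynomial σ K) : Prop :=
  ∃ (l : MvPolynomial σ K) (c : Fin n → K), (l.totalDegree : ℝ) ≤ w ∧
    (∀ j ∈ J, c j ≠ 0 → C j ≤ w) ∧ f = l + ∑ j ∈ J, c j • (a j * b j)

/-- `a 0 * b 0, …, a (n - 1) * b (n - 1)` are the products of a computation of `F` with the weights
`A s`, `B s` of the factors and `C s` of the products: the factors of the product `s` are sums of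
free polynomials and of linear combinations of earlier products of at most their weight, and `F` is
the sum of a polynomial of degree at most `3 Ω` and a linear combination of the products. -/
structure WeightedComputes (A B C : Fin n → ℝ) (Ω : ℝ) (a b : Fin n → MvPolynomial σ K)
    (F : MvPolynomial σ K) : Prop where
  left : ∀ s, OfWeight a b C (A s) (Finset.Iio s) (a s)
  right : ∀ s, OfWeight a b C (B s) (Finset.Iio s) (b s)
  out : ∃ (l : MvPolynomial σ K) (c : Fin n → K), (l.totalDegree : ℝ) ≤ 3 * Ω ∧
    F = l + ∑ s, c s • (a s * b s)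

/-- The sums of a polynomial of total degree at most `δ` and a linear combination, over the field
`K`, of the products `a j * b j` with `j ∈ J`. -/
noncomputable def Available (δ : ℕ)
    (a b : Fin n → MvPolynomial σ K) (J : Set (Fin n)) : Submodule K (MvPolynomial σ K) :=
  restrictTotalDegree σ K δ ⊔ Submodule.span K ((fun j => a j * b j) '' J)

/-- `a 0 * b 0, …, a (n - 1) * b (n - 1)` are the products of a computation of `F`, and `p s`,
`q s` are formal degrees of the two factors of the product `s`: they are at least `δ`, the factor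
`a s` is a sum of a polynomial of degree at most `δ` and a linear combination of earlier products
`j` of formal degree `p j + q j ≤ p s`, the factor `b s` is a sum of a polynomial of degree at most
`δ` and a linear combination of earlier products `j` of formal degree `p j + q j ≤ q s`, and `F` is
a sum of a polynomial of degree at most `δ` and a linear combination of the products. -/
structure Computes (δ : ℕ) (p q : Fin n → ℕ)
    (a b : Fin n → MvPolynomial σ K) (F : MvPolynomial σ K) : Prop where
  left_ge : ∀ s, δ ≤ p s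
  right_ge : ∀ s, δ ≤ q s
  left : ∀ s, a s ∈ Available δ a b {j | j < s ∧ p j + q j ≤ p s}
  right : ∀ s, b s ∈ Available δ a b {j | j < s ∧ p j + q j ≤ q s}
  out : F ∈ Available δ a b Set.univ

end Definitions

/-- All coefficients of `F` are defined at `ε = 0` and `F_{ε=0} = f`. -/
def SpecializesTo {K σ : Type*} [Field K] (F : MvPolynomial σ (RatFunc K))
    (f : MvPolynomial σ K) : Prop :=
  ∀ d, (coeff d F).denom.eval 0 ≠ 0 ∧ (coeff d F).eval (RingHom.id K) 0 = coeff d f

/-- The permanent of the `m × m` matrix of variables. -/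
noncomputable def per (K : Type*) [Field K] (m : ℕ) : MvPolynomial (Fin m × Fin m) K :=
  (Matrix.of fun i j : Fin m => (X (i, j) : MvPolynomial (Fin m × Fin m) K)).permanent

/-- The products with the formal degrees `p`, `q` of their factors can be divided into classes
`0, …, D - 1` with at most `M k` products in the class `k`, such that every product of the class
`k < D - 1` has a factor of formal degree at most `δ * 2 ^ k`. -/
def Fits {n : ℕ} (δ D : ℕ) (M : ℕ → ℕ) (p q : Fin n → ℕ) : Prop :=
  ∃ c : Fin n → ℕ, (∀ s, c s < D ∧ (c s < D - 1 → min (p s) (q s) ≤ δ * 2 ^ c s)) ∧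
    ∀ k, (Finset.univ.filter fun s => c s = k).card ≤ M k

lemma ofWeight_map {K σ : Type*} [Field K] {n : ℕ} {a b : Fin n → MvPolynomial σ K}
    {C : Fin n → ℝ} {w : ℝ} {J : Finset (Fin n)} {f : MvPolynomial σ K}
    (h : OfWeight a b C w J f) :
    OfWeight (fun t => map (RatFunc.C : K →+* RatFunc K) (a t))
      (fun t => map (RatFunc.C : K →+* RatFunc K) (b t)) C w J
      (map (RatFunc.C : K →+* RatFunc K) f) := by
  obtain ⟨l, c, hl, hc, hf⟩ := h
  refine ⟨map RatFunc.C l, fun j => RatFunc.C (c j), ?_, ?_, ?_⟩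
  · refine le_trans ?_ hl
    exact_mod_cast Pool.Agent.H632R2.Border.totalDegree_map_le _ _
  · intro j hj h0
    exact hc j hj fun h1 => h0 (by
      show RatFunc.C (c j) = 0
      rw [h1, map_zero])
  · rw [hf, map_add, map_sum]
    congr 1
    refine Finset.sum_congr rfl fun j _ => ?_
    rw [smul_eq_C_mul, smul_eq_C_mul, map_mul, map_mul, map_C]

lemma specializes_const {K σ : Type*} [Field K] (f : MvPolynomial σ K) :
    SpecializesTo (map (RatFunc.C : K →+* RatFunc K) f) f := by
  intro d
  rw [coeff_map]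
  constructor
  · rw [RatFunc.denom_C]; simp
  · rw [RatFunc.eval_C]; rfl

/-- the weighted law for limits -/
theorem weighted_limit {K : Type u} [Field K] [CharZero K] (m : ℕ) (hm : 55000 ≤ m) {n : ℕ}
    (A B C : Fin n → ℝ) (Ω : ℝ) (hΩ : 1 ≤ Ω) (hA : ∀ s, A s ≤ Ω) (hB : ∀ s, B s ≤ Ω)
    (hC0 : ∀ s, 0 < C s) (hC : ∀ s, C s ≤ Ω)
    (a b : Fin n → MvPolynomial (Fin m × Fin m) (RatFunc K))
    (F : MvPolynomial (Fin m × Fin m) (RatFunc K)) (hF : SpecializesTo F (per K m))
    (h : WeightedComputes A B C Ω a b F) :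
    (m : ℝ) ^ 2 * Real.log (m / (6000 * Ω)) ≤
      816 * ∑ s, Real.log (max 1 ((A s + B s) / C s)) := by
  choose la ca hla hca hae using h.left
  choose lb cb hlb hcb hbe using h.right
  obtain ⟨l, g, hl, hg⟩ := h.out
  exact Pool.Agent.W944.V2.pperm K m hm A B C Ω a b la lb ca cb g hae hbe hla hlb
    (fun t j hj h0 => hca t j (Finset.mem_Iio.mpr hj) h0)
    (fun t j hj h0 => hcb t j (Finset.mem_Iio.mpr hj) h0) hC0 hA hB hC hΩ l hl F hg hF

lemma available_map {K σ : Type*} [Field K] {n : ℕ} (δ : ℕ)
    (a b : Fin n → MvPolynomial σ K) (J : Set (Fin n)) (x : MvPolynomial σ K)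
    (hx : x ∈ Available δ a b J) :
    map (RatFunc.C : K →+* RatFunc K) x ∈
      Available δ (fun t => map (RatFunc.C : K →+* RatFunc K) (a t))
        (fun t => map (RatFunc.C : K →+* RatFunc K) (b t)) J := by
  unfold Available at hx ⊢
  rw [Submodule.mem_sup] at hx
  obtain ⟨y, hy, z, hz, rfl⟩ := hx
  rw [map_add]
  apply Submodule.add_mem
  · apply Submodule.mem_sup_left
    rw [mem_restrictTotalDegree] at hy ⊢
    exact (Pool.Agent.H632R2.Border.totalDegree_map_le _ _).trans hy
  · apply Submodule.mem_sup_right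
    induction hz using Submodule.span_induction with
    | mem y hy =>
      obtain ⟨j, hj, rfl⟩ := hy
      apply Submodule.subset_span
      exact ⟨j, hj, by simp only [map_mul]⟩
    | zero => rw [map_zero]; exact Submodule.zero_mem _
    | add y z _ _ hy hz => rw [map_add]; exact Submodule.add_mem _ hy hz
    | smul c y _ hy =>
      rw [smul_eq_C_mul, map_mul, map_C, ← smul_eq_C_mul]
      exact Submodule.smul_mem _ _ hy

/-- the cost of a product at the scale `T` -/
lemma cost_le {T : ℝ} (hT0 : 0 < T) (p q : ℕ) (hpos : 0 < p + q) :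
    Real.log (max 1 ((min (p : ℝ) T + min (q : ℝ) T) / min ((p + q : ℕ) : ℝ) T)) ≤
      (if T < (p + q : ℕ) then min 1 (((min p q : ℕ) : ℝ) / T) else 0) := by
  split_ifs with h1
  · rw [min_eq_right h1.le]
    have h2 : min (p : ℝ) T + min (q : ℝ) T ≤ T + min (((min p q : ℕ) : ℝ)) T := by
      rw [Nat.cast_min]
      rcases le_total (p : ℝ) (q : ℝ) with h3 | h3
      · rw [min_eq_left h3]
        have := min_le_right (q : ℝ) T
        linarith
      · rw [min_eq_right h3]
        have := min_le_right (p : ℝ) T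
        linarith
    have h3 : (min (p : ℝ) T + min (q : ℝ) T) / T ≤
        1 + min 1 (((min p q : ℕ) : ℝ) / T) := by
      rw [div_le_iff₀ hT0]
      refine h2.trans ?_
      rw [add_mul, one_mul, min_mul_of_nonneg _ _ hT0.le, one_mul, div_mul_cancel₀ _ hT0.ne',
        min_comm]
    have h4 : (0 : ℝ) ≤ min 1 (((min p q : ℕ) : ℝ) / T) := by positivity
    have h5 : max 1 ((min (p : ℝ) T + min (q : ℝ) T) / T) ≤
        1 + min 1 (((min p q : ℕ) : ℝ) / T) := max_le (by linarith) h3
    have h6 := Real.log_le_sub_one_of_pos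
      (show 0 < max 1 ((min (p : ℝ) T + min (q : ℝ) T) / T) from
        lt_of_lt_of_le one_pos (le_max_left _ _))
    linarith
  · push Not at h1
    rw [min_eq_left h1]
    have hpos' : (0 : ℝ) < ((p + q : ℕ) : ℝ) := by exact_mod_cast hpos
    have h2 : (min (p : ℝ) T + min (q : ℝ) T) / ((p + q : ℕ) : ℝ) ≤ 1 := by
      rw [div_le_one hpos']
      push_cast
      have := min_le_left (p : ℝ) T
      have := min_le_left (q : ℝ) T
      linarith
    rw [max_eq_left h2, Real.log_one]

open Pool.Agent.W944.Wt (mem_Avail) in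
/-- the law of scales for limits -/
theorem scale_limit {K : Type u} [Field K] [CharZero K] (m : ℕ) (hm : 55000 ≤ m) {n : ℕ}
    (δ : ℕ) (hδ : 1 ≤ δ) (p q : Fin n → ℕ)
    (a b : Fin n → MvPolynomial (Fin m × Fin m) (RatFunc K))
    (F : MvPolynomial (Fin m × Fin m) (RatFunc K)) (hF : SpecializesTo F (per K m))
    (h : Computes δ p q a b F) (T : ℝ) (hT : (δ : ℝ) ≤ T) :
    (m : ℝ) ^ 2 * Real.log (m / (6000 * T)) ≤
      816 * ∑ s with T < (p s + q s : ℕ), min 1 ((min (p s) (q s) : ℕ) / T) := by
  classical
  have hδr : (1 : ℝ) ≤ δ := by exact_mod_cast hδ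
  have hT1 : (1 : ℝ) ≤ T := by linarith
  have hT0 : (0 : ℝ) < T := by linarith
  choose la ca hla hca hae using fun s => mem_Avail (h.left s) (Finset.Iio s)
    (fun j hj => Finset.mem_Iio.mpr hj.1)
  choose lb cb hlb hcb hbe using fun s => mem_Avail (h.right s) (Finset.Iio s)
    (fun j hj => Finset.mem_Iio.mpr hj.1)
  obtain ⟨lf, gm, hlf, -, hfe⟩ := mem_Avail h.out Finset.univ (fun j _ => Finset.mem_univ j)
  have hmono : ∀ s t : ℕ, s ≤ t → min (s : ℝ) T ≤ min (t : ℝ) T := fun s t h =>
    min_le_min_right _ (by exact_mod_cast h)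
  have hge : ∀ t : ℕ, δ ≤ t → (δ : ℝ) ≤ min (t : ℝ) T := fun t h =>
    le_min (by exact_mod_cast h) hT
  have h1 := weighted_limit m hm (fun s => min (p s : ℝ) T) (fun s => min (q s : ℝ) T)
    (fun s => min ((p s + q s : ℕ) : ℝ) T) T hT1 (fun s => min_le_right _ _)
    (fun s => min_le_right _ _)
    (fun s => by
      have := hge (p s + q s) (by have := h.left_ge s; omega)
      linarith)
    (fun s => min_le_right _ _) a b F hF
    ⟨fun s => ⟨la s, ca s, le_trans (by exact_mod_cast hla s) (hge _ (h.left_ge s)),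
        fun j _ h0 => hmono _ _ (hca s j h0).2, hae s⟩,
      fun s => ⟨lb s, cb s, le_trans (by exact_mod_cast hlb s) (hge _ (h.right_ge s)),
        fun j _ h0 => hmono _ _ (hcb s j h0).2, hbe s⟩,
      ⟨lf, gm, by
        have h1 : (lf.totalDegree : ℝ) ≤ δ := by exact_mod_cast hlf
        linarith, hfe⟩⟩
  have h2 := Finset.sum_le_sum (s := Finset.univ) fun s (_ : s ∈ Finset.univ) =>
    cost_le hT0 (p s) (q s) (by have := h.left_ge s; omega)
  rw [Finset.sum_filter]
  linarith

/-- the sum over the products is at most the supply -/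
lemma sum_le_supply {n δ D : ℕ} (hδ : 1 ≤ δ) {M : ℕ → ℕ} {p q : Fin n → ℕ} (h : Fits δ D M p q)
    (i : ℕ) (hi : i < D) :
    ∑ s with ((δ * 2 ^ i : ℕ) : ℝ) < (p s + q s : ℕ),
      min 1 (((min (p s) (q s) : ℕ) : ℝ) / ((δ * 2 ^ i : ℕ) : ℝ)) ≤
      ∑ k ∈ Finset.range D, (M k : ℝ) * min 1 (2 ^ k / 2 ^ i) := by
  obtain ⟨c, hc1, hc2⟩ := h
  have hδr : (0 : ℝ) < δ := by exact_mod_cast (by omega : 0 < δ)
  have hw0 : ∀ k : ℕ, (0 : ℝ) ≤ min 1 (2 ^ k / 2 ^ i) := fun k => by positivity
  have h1 : ∀ s, min 1 (((min (p s) (q s) : ℕ) : ℝ) / ((δ * 2 ^ i : ℕ) : ℝ)) ≤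
      min 1 ((2 : ℝ) ^ c s / 2 ^ i) := by
    intro s
    obtain ⟨h2, h3⟩ := hc1 s
    rcases Nat.lt_or_ge (c s) (D - 1) with h4 | h4
    · apply min_le_min_left
      have h5 : ((min (p s) (q s) : ℕ) : ℝ) ≤ δ * 2 ^ c s := by exact_mod_cast h3 h4
      push_cast at h5 ⊢
      rw [div_le_div_iff₀ (by positivity) (by positivity)]
      calc min (p s : ℝ) (q s : ℝ) * 2 ^ i ≤ δ * 2 ^ c s * 2 ^ i := by gcongr
        _ = _ := by ring
    · have h5 : (1 : ℝ) ≤ 2 ^ c s / 2 ^ i := by
        rw [one_le_div (by positivity)]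
        exact pow_le_pow_right₀ (by norm_num) (by omega)
      rw [min_eq_left h5]
      exact min_le_left _ _
  calc ∑ s with ((δ * 2 ^ i : ℕ) : ℝ) < (p s + q s : ℕ),
      min 1 (((min (p s) (q s) : ℕ) : ℝ) / ((δ * 2 ^ i : ℕ) : ℝ))
      ≤ ∑ s with ((δ * 2 ^ i : ℕ) : ℝ) < (p s + q s : ℕ), min 1 ((2 : ℝ) ^ c s / 2 ^ i) :=
        Finset.sum_le_sum fun s _ => h1 s
    _ ≤ ∑ s, min 1 ((2 : ℝ) ^ c s / 2 ^ i) := by
        apply Finset.sum_le_sum_of_subset_of_nonneg (Finset.filter_subset _ _)
        intro s _ _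
        exact hw0 _
    _ = ∑ k ∈ Finset.range D, ∑ s with c s = k, min 1 ((2 : ℝ) ^ c s / 2 ^ i) := by
        rw [Finset.sum_fiberwise_of_maps_to]
        intro s _
        exact Finset.mem_range.mpr (hc1 s).1
    _ = ∑ k ∈ Finset.range D, ((Finset.univ.filter fun s => c s = k).card : ℝ) *
          min 1 ((2 : ℝ) ^ k / 2 ^ i) := by
        apply Finset.sum_congr rfl
        intro k _
        rw [← nsmul_eq_mul, ← Finset.sum_const]
        apply Finset.sum_congr rfl
        intro s hs
        rw [(Finset.mem_filter.mp hs).2]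
    _ ≤ _ := by
        apply Finset.sum_le_sum
        intro k _
        apply mul_le_mul_of_nonneg_right _ (hw0 k)
        exact_mod_cast hc2 k

/-- **The law of scales for the permanent.** `K` is a field of characteristic zero, `m ≥ 55000`.

(1) Weighted form. Let `A`, `B`, `C`, `Ω ≥ 1` be weights with `A s ≤ Ω`, `B s ≤ Ω` and
`0 < C s ≤ Ω`. If a computation with these weights computes the `m × m` permanent, or such a
computation over `K(ε)` computes a polynomial that is defined at `ε = 0` and specializes to the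
permanent, then `m ^ 2 log (m / (6000 Ω)) ≤ 816 ∑ log (max (1, (A s + B s) / C s))`.
(2) Law of scales. If a computation (exact or for a limit, as in (1)) in which all polynomials of
degree at most `δ`, `δ ≥ 1`, are free and `p`, `q` are formal degrees of the factors of its
products computes the permanent, then for every real `T ≥ δ`
`m ^ 2 log (m / (6000 T)) ≤ 816 ∑ min (1, min (p s, q s) / T)`, where the sum is over the products
`s` of formal degree `p s + q s > T`.
(3) If moreover the products can be divided into classes `0, …, D - 1`, with at most `M k` products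
of class `k`, such that the products of class `k < D - 1` have a factor of formal degree at most
`δ 2 ^ k`, then `m ^ 2 log (m / (6000 δ 2 ^ j)) ≤ 816 ∑ k < D, M k min (1, 2 ^ k / 2 ^ j)` for all
`j < D`. -/
theorem result (K : Type u) [Field K] [CharZero K] (m : ℕ) (hm : 55000 ≤ m) (n : ℕ) :
    (∀ (A B C : Fin n → ℝ) (Ω : ℝ), 1 ≤ Ω → (∀ s, A s ≤ Ω) → (∀ s, B s ≤ Ω) →
      (∀ s, 0 < C s) → (∀ s, C s ≤ Ω) →
      ((∃ a b, WeightedComputes A B C Ω a b (per K m)) ∨
        ∃ a b F, SpecializesTo F (per K m) ∧ WeightedComputes A B C Ω a b F) →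
      (m : ℝ) ^ 2 * Real.log (m / (6000 * Ω)) ≤
        816 * ∑ s, Real.log (max 1 ((A s + B s) / C s))) ∧
    (∀ δ : ℕ, 1 ≤ δ → ∀ p q : Fin n → ℕ,
      ((∃ a b, Computes δ p q a b (per K m)) ∨
        ∃ a b F, SpecializesTo F (per K m) ∧ Computes δ p q a b F) →
      (∀ T : ℝ, (δ : ℝ) ≤ T → (m : ℝ) ^ 2 * Real.log (m / (6000 * T)) ≤
        816 * ∑ s with T < (p s + q s : ℕ), min 1 ((min (p s) (q s) : ℕ) / T)) ∧
      ∀ (D : ℕ) (M : ℕ → ℕ), Fits δ D M p q → ∀ j < D,
        (m : ℝ) ^ 2 * Real.log (m / (6000 * (δ * 2 ^ j))) ≤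
          816 * ∑ k ∈ Finset.range D, (M k : ℝ) * min 1 (2 ^ k / 2 ^ j)) := by
  refine ⟨?_, ?_⟩
  · rintro A B C Ω hΩ hA hB hC0 hC (⟨a, b, h⟩ | ⟨a, b, F, hF, h⟩)
    · refine weighted_limit m hm A B C Ω hΩ hA hB hC0 hC _ _ _ (specializes_const (per K m))
        ⟨fun s => ofWeight_map (h.left s), fun s => ofWeight_map (h.right s), ?_⟩
      obtain ⟨l, c, hl, hf⟩ := h.out
      refine ⟨map RatFunc.C l, fun j => RatFunc.C (c j), ?_, ?_⟩
      · refine le_trans ?_ hl
        exact_mod_cast Pool.Agent.H632R2.Border.totalDegree_map_le _ _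
      · rw [hf, map_add, map_sum]
        congr 1
        refine Finset.sum_congr rfl fun j _ => ?_
        rw [smul_eq_C_mul, smul_eq_C_mul, map_mul, map_mul, map_C]
    · exact weighted_limit m hm A B C Ω hΩ hA hB hC0 hC a b F hF h
  · intro δ hδ p q h0
    have key : ∀ T : ℝ, (δ : ℝ) ≤ T → (m : ℝ) ^ 2 * Real.log (m / (6000 * T)) ≤
        816 * ∑ s with T < (p s + q s : ℕ), min 1 ((min (p s) (q s) : ℕ) / T) := by
      intro T hT
      rcases h0 with ⟨a, b, h⟩ | ⟨a, b, F, hF, h⟩
      · exact scale_limit m hm δ hδ p q _ _ _ (specializes_const (per K m))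
          ⟨h.left_ge, h.right_ge, fun s => available_map δ a b _ _ (h.left s),
            fun s => available_map δ a b _ _ (h.right s), available_map δ a b _ _ h.out⟩ T hT
      · exact scale_limit m hm δ hδ p q a b F hF h T hT
    refine ⟨key, fun D M hM j hj => ?_⟩
    have h1 := key ((δ * 2 ^ j : ℕ) : ℝ) (by
      exact_mod_cast Nat.le_mul_of_pos_right δ (by positivity : 0 < 2 ^ j))
    have h2 := sum_le_supply hδ hM j hj
    have h3 : ((δ * 2 ^ j : ℕ) : ℝ) = (δ : ℝ) * 2 ^ j := by push_cast; ring
    rw [h3] at h1 h2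
    linarith

end Pool.Agent.Results.MP_499dc6_lc.ScaleLawPermanent
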